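import Pool.Agent.Lib.FT.Final

/-!
# Free absorption of `C([0,1]^d)` by `(ℂ ⊕ ℂ)^{*_r ∞}`

`IsState φ`, `IsFree φ S`, `IsReducedFreeProduct φ S` are defined in `Pool.Agent.Lib.FT.Defs`.

A unital C*-algebra `A` with a state `φ` is the reduced free product of its unital *-subalgebras `S i`
(each with the restriction of `φ`) exactly if the `S i` are free with respect to `φ`, generate `A` as
a C*-algebra, and the GNS representation of `φ` is faithful.  This determines `(A, φ)` up to
isomorphism from the `(S i, φ)` (Voiculescu).  For the sequence of the copies of `ℂ ⊕ ℂ` it describes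
the inductive limit of the finite reduced free products, with the limit state.
-/

set_option autoImplicit false

open MeasureTheory

namespace Pool.Agent.Results.MP_1cc182_an.FreeAbsorption

open Pool.Agent.FT

/-- FULL ANSWER (yes, for every `d`).  Let `(B, τ)` be the reduced free product of a sequence of copies
`e k` of `ℂ ⊕ ℂ` with the state `(x, y) ↦ (x + y) / 2`, that is `(B, τ) = (ℂ ⊕ ℂ)^{*_r ∞}`, and let
`(D, φ)` be the reduced free product of the copy `ι` of `C([0,1]^d)` with the Lebesgue state and the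
copy `κ` of `(B, τ)`.  Then the C*-algebras `D` and `B` are isomorphic. -/
theorem result (d : ℕ) (B : Type) [CStarAlgebra B] (D : Type) [CStarAlgebra D]
    (τ : B →ₗ[ℂ] ℂ) (e : ℕ → (ℂ × ℂ) →⋆ₐ[ℂ] B)
    (φ : D →ₗ[ℂ] ℂ) (ι : C(Fin d → unitInterval, ℂ) →⋆ₐ[ℂ] D) (κ : B →⋆ₐ[ℂ] D)
    (hB : IsReducedFreeProduct τ (fun k => (e k).range))
    (he : ∀ k x, τ (e k x) = (x.1 + x.2) / 2)
    (hD : IsReducedFreeProduct φ (fun b : Bool => cond b ι.range κ.range))
    (hι : ∀ f : C(Fin d → unitInterval, ℂ), φ (ι f) = ∫ x, f x)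
    (hκ : ∀ b, φ (κ b) = τ b) :
    Nonempty (D ≃⋆ₐ[ℂ] B) :=
  main_goal d B D τ e φ ι κ hB he hD hι hκ

end Pool.Agent.Results.MP_1cc182_an.FreeAbsorption
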